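import Pool.Agent.ERG.Ext

/-!
# MP_8e3051_an, Q1: every homotopy class contains a non-uniformly hyperbolic, stably ergodic endomorphism

Q1 has the answer yes.  For every integer matrix `E` with `|det E| ≥ 2` (homotheties, `τ₂ ≤ 4` and
eigenvalues `±1` included) there is a `C^∞` area preserving local diffeomorphism `f` of the torus with
linear part `E` such that
* all `C¹` maps `g` in a `C¹` neighbourhood of `f` are non-uniformly hyperbolic, with a uniform rate `c > 0`:
  `m(D_x gⁿ) ≤ e^{-cn}` and `‖D_x gⁿ‖ ≥ e^{cn}` for almost every `x` and all large `n`;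
* all area preserving `g` of class `C²` in a `C¹` neighbourhood of `f` are ergodic.

Strategy.  After a conjugation by a unimodular matrix, `f = E ∘ h₁ ∘ h₂` with the shears
`h₂ (x, y) = (x, y + φ x)`, `h₁ (x, y) = (x + φ y, y)`.  Let `L Ψ (x, v) = d⁻¹ ∑ Ψ (y, (D_y f)⁻¹ v)`
be the average over the preimages `y` of `x`.  One finds `φ`, `s > 0`, `n`, `ρ < 1` with
`Lⁿ ‖v‖^{-s} ≤ ρ ‖v‖^{-s}` for all `x` and `v ≠ 0`.  The inequality persists under `C¹` small
perturbations `g`, and integrating it gives the exponential contraction and expansion.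
For the ergodicity let `A` be invariant and `z` any point.  Write `1_A = 1_A ∘ gⁿ`, approximate `1_A` by a
continuous function `φ₀`, and look at the preimages `y` of order `n`.  The moment inequality shows that for
every `z` most (with respect to the natural weights) pairs of a preimage `y` and a line at `y` produce under
`gⁿ` a curve of definite length, almost straight at a fixed scale `r`, through `z`, along which `φ₀ ∘ g^{-n}`
(inverse branch) is almost constant, and that two independent such choices are transversal with a definite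
angle.  So for nearby points of `A` and of its complement the two curves cross, which is impossible unless
`A` or its complement is null in a ball of radius `ρ` around `z`, where `ρ` does not depend on `z`; and the
plane is connected.
-/

set_option autoImplicit false

namespace Pool.Agent.Results.MP_8e3051_an.FullAnswer

open MeasureTheory Filter Topology
open scoped ContDiff

/-- The torus `ℝ² / ℤ²`.  Its `volume` is the Haar probability measure `μ`. -/
abbrev Torus : Type := UnitAddCircle × UnitAddCircle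

/-- The projection of the plane onto the torus. -/
def proj (z : ℝ × ℝ) : Torus := ((z.1 : UnitAddCircle), (z.2 : UnitAddCircle))

/-- A vector of `ℤ²` as a vector of the plane. -/
def vec (k : Fin 2 → ℤ) : ℝ × ℝ := ((k 0 : ℝ), (k 1 : ℝ))

/-- `g` is a map of the torus of class `C^r` with linear part `E` (that is, `g` is homotopic to `E`) and
`G` is a lift of `g` to the plane. -/
structure IsLift (r : WithTop ℕ∞) (E : Matrix (Fin 2) (Fin 2) ℤ) (g : Torus → Torus)
    (G : ℝ × ℝ → ℝ × ℝ) : Prop where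
  /-- `G` is a lift of `g` -/
  lift : ∀ z, g (proj z) = proj (G z)
  /-- class `C^r` -/
  contDiff : ContDiff ℝ r G
  /-- the linear part is `E` -/
  linear : ∀ z k, G (z + vec k) = G z + vec (E.mulVec k)

/-- `g` is in `[E] ∩ End^r_μ`: it is a `C^r` local diffeomorphism with linear part `E` which preserves the
Haar measure and is not invertible; `G` is a lift of `g`. -/
structure IsEnd (r : WithTop ℕ∞) (E : Matrix (Fin 2) (Fin 2) ℤ) (g : Torus → Torus)
    (G : ℝ × ℝ → ℝ × ℝ) : Prop extends IsLift r E g G where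
  /-- local diffeomorphism -/
  det : ∀ z, (fderiv ℝ G z).det ≠ 0
  /-- the Haar measure is preserved -/
  measurePreserving : MeasurePreserving g (volume : Measure Torus) (volume : Measure Torus)
  /-- not invertible -/
  notInjective : ¬ Function.Injective g

/-- `G` is `δ`-close to `F` in the `C¹` topology. -/
def Near (δ : ℝ) (F G : ℝ × ℝ → ℝ × ℝ) : Prop :=
  (∀ z, ‖G z - F z‖ ≤ δ) ∧ ∀ z, ‖fderiv ℝ G z - fderiv ℝ F z‖ ≤ δ

/-- `m(A)`, the infimum of `‖A v‖` over the unit vectors `v`. -/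
noncomputable def conorm (A : ℝ × ℝ →L[ℝ] ℝ × ℝ) : ℝ := sInf {r | ∃ v : ℝ × ℝ, ‖v‖ = 1 ∧ r = ‖A v‖}

/-- For almost every point `x` of the torus: `m(D_x gⁿ) ≤ e^{-cn}` and `‖D_x gⁿ‖ ≥ e^{cn}` for all large
`n`, where `D_x gⁿ = D_z Gⁿ` for every point `z` of the plane over `x`. -/
def HypWithRate (G : ℝ × ℝ → ℝ × ℝ) (c : ℝ) : Prop :=
  ∀ᵐ x : Torus, ∀ z : ℝ × ℝ, proj z = x → ∀ᶠ n : ℕ in atTop,
    conorm (fderiv ℝ (G^[n]) z) ≤ Real.exp (-(c * n)) ∧ Real.exp (c * n) ≤ ‖fderiv ℝ (G^[n]) z‖

/-- All `C¹` maps (area preserving or not) in a `C¹` neighbourhood of the map `f` with the lift `F` are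
non-uniformly hyperbolic, with exponents uniformly bounded away from `0`. -/
def RobustlyNUH (F : ℝ × ℝ → ℝ × ℝ) : Prop :=
  ∃ δ : ℝ, 0 < δ ∧ ∃ c : ℝ, 0 < c ∧
    ∀ (E' : Matrix (Fin 2) (Fin 2) ℤ) (g : Torus → Torus) (G : ℝ × ℝ → ℝ × ℝ),
      IsLift 1 E' g G → Near δ F G → HypWithRate G c

/-- The map `f` with the lift `F` is stably ergodic: there is a `C¹` neighbourhood of `f` all of whose
elements in `End²_μ` are ergodic with respect to the Haar measure. -/
def StablyErgodic (F : ℝ × ℝ → ℝ × ℝ) : Prop :=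
  ∃ δ : ℝ, 0 < δ ∧
    ∀ (E' : Matrix (Fin 2) (Fin 2) ℤ) (g : Torus → Torus) (G : ℝ × ℝ → ℝ × ℝ),
      IsEnd 2 E' g G → Near δ F G → Ergodic g (volume : Measure Torus)

/-- Every homotopy class `[E]`, `|det E| ≥ 2`, contains a `C^∞` area preserving endomorphism `f` that is
non-uniformly hyperbolic (even robustly) and stably ergodic. -/
theorem result (E : Matrix (Fin 2) (Fin 2) ℤ) (hE : 2 ≤ |E.det|) :
    ∃ (f : Torus → Torus) (F : ℝ × ℝ → ℝ × ℝ), IsEnd ∞ E f F ∧ RobustlyNUH F ∧ StablyErgodic F := by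
  classical
  set toMt : Matrix (Fin 2) (Fin 2) ℤ → NUH.Mt := fun A => ⟨A 0 0, A 0 1, A 1 0, A 1 1⟩ with htoMt
  set N : NUH.Mt := toMt E with hN
  have hNd : N.det = E.det := by
    rw [Matrix.det_fin_two]; rfl
  have hvec : ∀ k : Fin 2 → ℤ, vec k = NUH.zc (k 0, k 1) := fun k => rfl
  have hmul : ∀ (A : Matrix (Fin 2) (Fin 2) ℤ) (k : Fin 2 → ℤ),
      vec (A.mulVec k) = NUH.zc (NUH.mv (toMt A) (k 0, k 1)) := by
    intro A k
    unfold vec NUH.zc NUH.mv
    simp [Matrix.mulVec, dotProduct, Fin.sum_univ_two, htoMt]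
  have hk : ∀ k : ℤ × ℤ, NUH.zc k = vec ![k.1, k.2] := fun k => rfl
  have hlin : ∀ (A : Matrix (Fin 2) (Fin 2) ℤ) (G : ℝ × ℝ → ℝ × ℝ),
      (∀ z k, G (z + vec k) = G z + vec (A.mulVec k)) ↔
      ∀ z k, G (z + NUH.zc k) = G z + NUH.zc (NUH.mv (toMt A) k) := by
    intro A G
    constructor
    · intro h z k
      rw [hk, h, hmul]
      rfl
    · intro h z k
      rw [hvec, h, hmul]
  have hE' : 2 ≤ |N.det| := by rw [hNd]; exact hE
  obtain ⟨U, V, M, φ, hS, hdet, hφ, hp, δ, hδ, c, hc, hmain⟩ := ERG.plane_erg N hE'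
  have hM0 : M.det ≠ 0 := by
    rw [hdet, hNd]; intro h; rw [h] at hE; simp at hE
  have hFd : Differentiable ℝ (NUH.fwd M φ) := (NUH.fwd_contDiff M hφ).differentiable (by simp)
  have hFper : ∀ z k, NUH.cj U V (NUH.fwd M φ) (z + NUH.zc k) =
      NUH.cj U V (NUH.fwd M φ) z + NUH.zc (NUH.mv N k) := NUH.cj_per hS (NUH.fwd_per M hp)
  have hsame : ∀ (A : Matrix (Fin 2) (Fin 2) ℤ) (G : ℝ × ℝ → ℝ × ℝ),
      (∀ z k, G (z + vec k) = G z + vec (A.mulVec k)) →
      (∀ z, ‖G z - NUH.cj U V (NUH.fwd M φ) z‖ ≤ δ) →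
      ∀ z k, G (z + NUH.zc k) = G z + NUH.zc (NUH.mv N k) := by
    intro A G hG h0 z k
    have h1 := (hlin A G).mp hG
    rw [h1, ERG.same_linear hFper h1 h0 k]
  refine ⟨NUH.fT U V M hp, NUH.cj U V (NUH.fwd M φ), ⟨⟨?_, ?_, ?_⟩, ?_, ?_, ?_⟩,
    ⟨δ, hδ, c, hc, ?_⟩, ⟨δ, hδ, ?_⟩⟩
  · exact NUH.fT_pr U V M hp
  · exact NUH.cj_contDiff U V (NUH.fwd_contDiff M hφ)
  · rw [hlin]
    exact hFper
  · intro z
    rw [NUH.cj_det hS hFd, NUH.fwd_det hM0 hφ hp]
    exact_mod_cast hM0
  · exact NUH.fT_mp hS hM0 hp hφ.continuous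
  · exact ERG.not_injective hE' hS hM0 hp
  · intro A g G hG hnear
    have hper := hsame A G hG.linear hnear.1
    have hae := (hmain G hG.contDiff hper hnear.1 hnear.2).1
    have hGd : Differentiable ℝ G := hG.contDiff.differentiable one_ne_zero
    have h2 := NUH.ae_torus (P := fun z => NUH.Gz G c z)
      (fun z k => NUH.Gz_per hper hGd c z k) hae
    unfold HypWithRate
    filter_upwards [h2] with x hx z hz
    filter_upwards [hx z hz] with n hn
    obtain ⟨⟨v, hv1, hv2⟩, hn2⟩ := hn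
    refine ⟨?_, hn2⟩
    refine le_trans ?_ hv2
    exact csInf_le ⟨0, by rintro r ⟨w, _, rfl⟩; exact norm_nonneg _⟩ ⟨v, hv1, rfl⟩
  · intro A g G hG hnear
    have hper := hsame A G hG.linear hnear.1
    exact (hmain G (hG.contDiff.of_le (by norm_num)) hper hnear.1 hnear.2).2 hG.contDiff g hG.lift
      hG.measurePreserving

end Pool.Agent.Results.MP_8e3051_an.FullAnswer
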